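import Pool.Agent.H94.PX4.M87

/-!
# TM Loc: local factorizations of a family of binary forms

`loc_fac`: if the form `c y₀ = A₀ * B₀` with `A₀`, `B₀` without common zeros then near `y₀` there are holomorphic `A y`, `B y` with `c y = A y * B y`.  Proof: let `μ (A, B) = A * B` (`exists_ml`, a polynomial map).  Its derivative `L (α, β) = α * B₀ + A₀ * β` at `(A₀, B₀)` is surjective: `rs A₀ B₀ ≠ 0`
(`rs_zero`) is the Sylvester determinant, so all forms of degree `n + n' - 1` are `α * B₀ + A₀ * β` with `α`, `β` of degrees `n - 1`, `n' - 1`, and a form of degree `n + n' > 0` is `v_0 E_1 + v_1 E_2`; (or: the kernel of `L` is spanned by `(A₀, - B₀)`, count dimensions).  Let `R` be a linear right inverse of `L`,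
`φ u = μ ((A₀, B₀) + R u)`: `EN (n + n') → EN (n + n')`, `φ 0 = c y₀`, with derivative `id` at `0`: the inverse function theorem (`ContDiffAt.toOpenPartialHomeomorph`, `ContDiffAt.to_localInverse`) gives a holomorphic local inverse `ψ`, and `(A y, B y) = (A₀, B₀) + R (ψ (c y))`.
`roots_near`: if `Fo θ y₀` is not `0` and has only simple roots: `d` holomorphic roots near `y₀`, pairwise different: `exists_split` at `y₀` (the `r i` are pairwise different), `loc_fac` with `n = 1`, `A₀ = dt (r i) ·`; a linear form `A ∈ EN 1`, `bf A v = A 1 v_0 + A 0 v_1`, is `dt (A 0, - A 1) v`.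
-/

set_option autoImplicit false

open Topology Filter Metric

namespace Pool.Agent.TM

open Pool.Agent.H36.BP (EN)
open Pool.Agent.AD (Vd)
open Pool.Agent.PX (Fo Fd dt)

variable {k d n m n' : ℕ}

private theorem Loc_cast {a b : ℕ} (h : a = b) (c : EN a) : ∃ c' : EN b, ∀ v, bf c' v = bf c v := by
  subst h
  exact ⟨c, fun _ => rfl⟩

private theorem bf_one (A : EN 1) (v : EN 1) : bf A v = A 0 * v 1 + A 1 * v 0 := by
  unfold bf
  rw [Fin.sum_univ_two]
  simp

/-- the linear form with the root `r` -/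
private noncomputable def lf (r : EN 1) : EN 1 := WithLp.toLp 2 ![r 0, - r 1]

private theorem bf_lf (r v : EN 1) : bf (lf r) v = dt r v := by
  rw [bf_one]
  simp only [lf, dt]
  simp
  ring

/-- the root of the linear form -/
private noncomputable def rt (A : EN 1) : EN 1 := WithLp.toLp 2 ![A 0, - A 1]

private theorem dt_rt (A v : EN 1) : dt (rt A) v = bf A v := by
  rw [bf_one]
  simp only [rt, dt]
  simp

private theorem rt_diff : Differentiable ℂ rt := by
  have h : (rt : EN 1 → EN 1) = fun A => WithLp.toLp 2 fun i => (![A 0, - A 1] : Fin 2 → ℂ) i := rfl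
  rw [h, differentiable_euclidean]
  intro i
  fin_cases i
  · exact (EuclideanSpace.proj (0 : Fin 2) : EN 1 →L[ℂ] ℂ).differentiable
  · exact (EuclideanSpace.proj (1 : Fin 2) : EN 1 →L[ℂ] ℂ).differentiable.neg

private theorem dt_self (r : EN 1) : dt r r = 0 := by
  unfold dt
  ring

private theorem bf_deg_zero (c : EN 0) (v : EN 1) : bf c v = c 0 := by
  unfold bf
  rw [Fin.sum_univ_one]
  simp

/-- division by a linear form -/
private theorem Loc_div {c : EN (n + 1)} {r : EN 1} (hr : r ≠ 0) (h : bf c r = 0) :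
    ∃ c' : EN n, ∀ v, bf c v = dt r v * bf c' v := by
  obtain ⟨c₁, hc₁⟩ := Loc_cast (Nat.add_comm n 1) c
  have hl : lf r ≠ 0 := by
    intro h0
    apply hr
    have h1 : ∀ v, dt r v = 0 := fun v => by rw [← bf_lf, h0, bf_zero]
    have h2 := h1 (WithLp.toLp 2 ![0, 1])
    have h3 := h1 (WithLp.toLp 2 ![1, 0])
    simp [dt] at h2 h3
    ext i
    fin_cases i
    · exact h2
    · exact h3
  obtain ⟨H, hH⟩ := exists_quo (n := 1) (n' := n) (c := c₁) hl (fun _ => r)
    (fun i j hij => absurd (Subsingleton.elim i j) hij) (fun _ => hr)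
    (fun _ => by rw [bf_lf, dt_self]) (fun _ => by rw [hc₁, h])
  exact ⟨H, fun v => by rw [← hc₁, hH, bf_lf]⟩

/-- a form of degree `n` with a prescribed value at a point -/
private theorem Loc_val (n : ℕ) {r : EN 1} (hr : r ≠ 0) (w : ℂ) : ∃ α : EN n, bf α r = w := by
  obtain ⟨φ, -, hφ⟩ := exists_pf n
  obtain ⟨s, hs⟩ : ∃ s : EN 1, dt s r ≠ 0 := by
    by_contra hc
    push Not at hc
    apply hr
    have h2 := hc (WithLp.toLp 2 ![0, 1])
    have h3 := hc (WithLp.toLp 2 ![1, 0])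
    simp [dt] at h2 h3
    ext i
    fin_cases i
    · exact h2
    · exact h3
  refine ⟨(w / (dt s r) ^ n) • φ fun _ => s, ?_⟩
  rw [bf_smul, hφ, Finset.prod_const, Finset.card_univ, Fintype.card_fin,
    div_mul_cancel₀ _ (pow_ne_zero _ hs)]

/-- **Bezout** for binary forms without common zeros -/
private theorem Loc_bez : ∀ (n n' d : ℕ) (_ : n + n' = d) (A : EN n) (B : EN n')
    (_ : ∀ v : EN 1, v ≠ 0 → bf A v = 0 → bf B v ≠ 0) (F : EN d),
    ∃ (α : EN n) (β : EN n'), ∀ v, bf F v = bf α v * bf B v + bf A v * bf β v := by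
  intro n
  induction n with
  | zero =>
    intro n' d hd A B hco F
    obtain ⟨F', hF'⟩ := Loc_cast (show d = n' by omega) F
    by_cases hA : A 0 = 0
    · have hn' : n' = 0 := by
        by_contra hn
        obtain ⟨v, hv, hv0⟩ := exists_root (Nat.pos_of_ne_zero hn) B
        exact hco v hv (by rw [bf_deg_zero, hA]) hv0
      subst hn'
      have hB : B 0 ≠ 0 := by
        obtain ⟨v, hv⟩ : ∃ v : EN 1, v ≠ 0 := exists_ne 0
        have h1 := hco v hv (by rw [bf_deg_zero, hA])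
        rwa [bf_deg_zero] at h1
      refine ⟨(B 0)⁻¹ • F', 0, fun v => ?_⟩
      rw [bf_smul, hF', bf_zero, mul_zero, add_zero, bf_deg_zero B, mul_comm, ← mul_assoc,
        mul_inv_cancel₀ hB, one_mul]
    · refine ⟨0, (A 0)⁻¹ • F', fun v => ?_⟩
      rw [bf_smul, hF', bf_zero, zero_mul, zero_add, bf_deg_zero A, ← mul_assoc,
        mul_inv_cancel₀ hA, one_mul]
  | succ n ih =>
    intro n' d hd A B hco F
    by_cases hA : A = 0
    · subst hA
      have hn' : n' = 0 := by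
        by_contra hn
        obtain ⟨v, hv, hv0⟩ := exists_root (Nat.pos_of_ne_zero hn) B
        exact hco v hv (bf_zero v) hv0
      subst hn'
      obtain ⟨F', hF'⟩ := Loc_cast (show d = n + 1 by omega) F
      have hB : B 0 ≠ 0 := by
        obtain ⟨v, hv⟩ : ∃ v : EN 1, v ≠ 0 := exists_ne 0
        have h1 := hco v hv (bf_zero v)
        rwa [bf_deg_zero] at h1
      refine ⟨(B 0)⁻¹ • F', 0, fun v => ?_⟩
      rw [bf_smul, hF', bf_zero, zero_mul, add_zero, bf_deg_zero B, mul_comm, ← mul_assoc,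
        mul_inv_cancel₀ hB, one_mul]
    · obtain ⟨r, hr, hr0⟩ := exists_root (Nat.succ_pos n) A
      obtain ⟨A₁, hA₁⟩ := Loc_div hr hr0
      have hB : bf B r ≠ 0 := hco r hr hr0
      obtain ⟨α₀, hα₀⟩ := Loc_val (n + 1) hr (bf F r / bf B r)
      obtain ⟨F', hF'⟩ := Loc_cast (show d = n + n' + 1 by omega) F
      obtain ⟨φ, -, hφ⟩ := exists_ml (n + 1) n'
      obtain ⟨P, hP⟩ := Loc_cast (show n + 1 + n' = n + n' + 1 by omega) (φ (α₀, B))
      have h1 : bf (F' + (-1 : ℂ) • P) r = 0 := by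
        rw [bf_add, bf_smul, hF', hP, hφ, hα₀, div_mul_cancel₀ _ hB]
        ring
      obtain ⟨F₁, hF₁⟩ := Loc_div hr h1
      obtain ⟨α₁, β, hab⟩ := ih n' (n + n') rfl A₁ B (fun v hv hv0 => hco v hv (by
        rw [hA₁, hv0, mul_zero])) F₁
      obtain ⟨ψ, -, hψ⟩ := exists_ml 1 n
      obtain ⟨Q, hQ⟩ := Loc_cast (Nat.add_comm 1 n) (ψ (lf r, α₁))
      refine ⟨α₀ + Q, β, fun v => ?_⟩
      have h2 := hF₁ v
      rw [bf_add, bf_smul, hF', hP, hφ, hab] at h2
      rw [bf_add, hQ, hψ, bf_lf, hA₁]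
      linear_combination h2

/-- the multiplication of forms -/
private theorem Loc_bil (n n' : ℕ) : ∃ φ : EN n × EN n' → EN (n + n'), IsBoundedBilinearMap ℂ φ ∧
    ∀ G H v, bf (φ (G, H)) v = bf G v * bf H v := by
  obtain ⟨φ, -, hφ⟩ := exists_ml n n'
  obtain ⟨C, hC, hb⟩ := mul_up n n'
  refine ⟨φ, ⟨fun G G' H => bf_ext fun v => ?_, fun s G H => bf_ext fun v => ?_,
    fun G H H' => bf_ext fun v => ?_, fun s G H => bf_ext fun v => ?_, C, hC, fun G H => ?_⟩, hφ⟩
  · rw [hφ, bf_add, bf_add, hφ, hφ, add_mul]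
  · rw [hφ, bf_smul, bf_smul, hφ, mul_assoc]
  · rw [hφ, bf_add, bf_add, hφ, hφ, mul_add]
  · rw [hφ, bf_smul, bf_smul, hφ]
    ring
  · rw [mul_assoc]
    exact hb G H _ fun v => hφ G H v

theorem loc_fac {E : Type*} [NormedAddCommGroup E] [NormedSpace ℂ E] {c : E → EN d} {y₀ : E} {R : ℝ} (hR : 0 < R) (hc : DifferentiableOn ℂ c (ball y₀ R)) (hn : n + n' = d) {A₀ : EN n} {B₀ : EN n'}
    (h0 : ∀ v, bf (c y₀) v = bf A₀ v * bf B₀ v) (hco : ∀ v : EN 1, v ≠ 0 → bf A₀ v = 0 → bf B₀ v ≠ 0) :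
    ∃ (ρ : ℝ) (A : E → EN n) (B : E → EN n'), 0 < ρ ∧ ρ ≤ R ∧ DifferentiableOn ℂ A (ball y₀ ρ) ∧ DifferentiableOn ℂ B (ball y₀ ρ) ∧ A y₀ = A₀ ∧ B y₀ = B₀ ∧
      ∀ y ∈ ball y₀ ρ, ∀ v, bf (c y) v = bf (A y) v * bf (B y) v := by
  subst hn
  obtain ⟨μ, hμ, hμv⟩ := Loc_bil n n'
  -- the derivative has a right inverse
  have hsurj : Function.Surjective (hμ.deriv (A₀, B₀)).toLinearMap := by
    intro F
    obtain ⟨α, β, h⟩ := Loc_bez n n' (n + n') rfl A₀ B₀ hco F
    refine ⟨(α, β), ?_⟩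
    show hμ.deriv (A₀, B₀) (α, β) = F
    rw [hμ.deriv_apply]
    refine bf_ext fun v => ?_
    rw [bf_add, hμv, hμv, h]
    ring
  obtain ⟨Q₀, hQ₀⟩ := (hμ.deriv (A₀, B₀)).toLinearMap.exists_rightInverse_of_surjective
    (LinearMap.range_eq_top.2 hsurj)
  set Q : EN (n + n') →L[ℂ] EN n × EN n' := LinearMap.toContinuousLinearMap Q₀ with hQ
  have hQd : ∀ u, hμ.deriv (A₀, B₀) (Q u) = u := fun u => LinearMap.congr_fun hQ₀ u
  set φ : EN (n + n') → EN (n + n') := fun u => μ ((A₀, B₀) + Q u) with hφ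
  have hφ0 : φ 0 = c y₀ := by
    rw [hφ]
    beta_reduce
    rw [map_zero, add_zero]
    exact bf_ext fun v => by rw [hμv, h0]
  have hφc : ContDiff ℂ 1 φ :=
    hμ.contDiff.comp (contDiff_const.add Q.contDiff)
  have hφd : HasFDerivAt φ ((ContinuousLinearEquiv.refl ℂ (EN (n + n')) :
      EN (n + n') ≃L[ℂ] EN (n + n')) : EN (n + n') →L[ℂ] EN (n + n')) 0 := by
    have h1 : HasFDerivAt (fun u => (A₀, B₀) + Q u) Q 0 := Q.hasFDerivAt.const_add _
    have h2 : HasFDerivAt μ (hμ.deriv (A₀, B₀)) ((A₀, B₀) + Q 0) := by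
      rw [map_zero, add_zero]
      exact hμ.hasFDerivAt (A₀, B₀)
    have h3 := h2.comp (0 : EN (n + n')) h1
    have h4 : (hμ.deriv (A₀, B₀)).comp Q = ((ContinuousLinearEquiv.refl ℂ (EN (n + n')) :
      EN (n + n') ≃L[ℂ] EN (n + n')) : EN (n + n') →L[ℂ] EN (n + n')) := by
      ext1 u
      exact hQd u
    rw [← h4]
    exact h3
  have hone : (1 : WithTop ℕ∞) ≠ 0 := one_ne_zero
  set ψ := (hφc.contDiffAt (x := (0 : EN (n + n')))).localInverse hφd hone with hψ
  have hψc : ContDiffAt ℂ 1 ψ (c y₀) := by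
    rw [← hφ0]
    exact (hφc.contDiffAt (x := (0 : EN (n + n')))).to_localInverse hφd hone
  have hψ0 : ψ (c y₀) = 0 := by
    rw [← hφ0]
    exact (hφc.contDiffAt (x := (0 : EN (n + n')))).localInverse_apply_image hφd hone
  have hψr : ∀ᶠ x in 𝓝 (c y₀), φ (ψ x) = x := by
    rw [← hφ0]
    exact ((hφc.contDiffAt (x := (0 : EN (n + n')))).hasStrictFDerivAt' hφd
      hone).eventually_right_inverse
  have hψe : ∀ᶠ x in 𝓝 (c y₀), ContDiffAt ℂ 1 ψ x := hψc.eventually (by simp)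
  have hcc : ContinuousAt c y₀ :=
    (hc.differentiableAt (isOpen_ball.mem_nhds (mem_ball_self hR))).continuousAt
  have hev : ∀ᶠ y in 𝓝 y₀, φ (ψ (c y)) = c y ∧ ContDiffAt ℂ 1 ψ (c y) :=
    hcc.eventually (hψr.and hψe)
  obtain ⟨ρ', hρ', hb⟩ := Metric.eventually_nhds_iff_ball.1 hev
  have hcd : ∀ y ∈ ball y₀ (min ρ' R), DifferentiableAt ℂ (fun y => Q (ψ (c y))) y := by
    intro y hy
    have h1 := (hb y (ball_subset_ball (min_le_left _ _) hy)).2
    have h2 := hc.differentiableAt (isOpen_ball.mem_nhds (ball_subset_ball (min_le_right _ _) hy))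
    exact Q.differentiableAt.comp y ((h1.differentiableAt one_ne_zero).comp y h2)
  refine ⟨min ρ' R, fun y => A₀ + (Q (ψ (c y))).1, fun y => B₀ + (Q (ψ (c y))).2,
    lt_min hρ' hR, min_le_right _ _, ?_, ?_, ?_, ?_, ?_⟩
  · intro y hy
    exact ((hcd y hy).fst.const_add _).differentiableWithinAt
  · intro y hy
    exact ((hcd y hy).snd.const_add _).differentiableWithinAt
  · beta_reduce
    rw [hψ0, map_zero]
    exact add_zero _
  · beta_reduce
    rw [hψ0, map_zero]
    exact add_zero _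
  · intro y hy v
    have h1 := (hb y (ball_subset_ball (min_le_left _ _) hy)).1
    rw [← hμv, ← h1]
    rfl

private theorem Loc_cd (j : Fin (1 + 1)) : Differentiable ℂ fun x : EN 1 => x j := by
  exact (EuclideanSpace.proj (𝕜 := ℂ) j : EN 1 →L[ℂ] ℂ).differentiable

private theorem Loc_dtd (s : EN 1) : Differentiable ℂ fun v : EN 1 => dt s v := by
  show Differentiable ℂ fun v : EN 1 => s 0 * v 1 - s 1 * v 0
  exact ((differentiable_const _).mul (Loc_cd 1)).sub ((differentiable_const _).mul (Loc_cd 0))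

private theorem Loc_dtc {X : Type*} [TopologicalSpace X] {f g : X → EN 1} {x : X}
    (hf : ContinuousAt f x) (hg : ContinuousAt g x) : ContinuousAt (fun y => dt (f y) (g y)) x := by
  have h1 : ∀ j : Fin (1 + 1), ContinuousAt (fun y => (f y) j) x := fun j =>
    (Loc_cd j).continuous.continuousAt.comp hf
  have h2 : ∀ j : Fin (1 + 1), ContinuousAt (fun y => (g y) j) x := fun j =>
    (Loc_cd j).continuous.continuousAt.comp hg
  show ContinuousAt (fun y => (f y) 0 * (g y) 1 - (f y) 1 * (g y) 0) x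
  exact ((h1 0).mul (h2 1)).sub ((h1 1).mul (h2 0))

/-- a product of linear forms with two proportional factors has a multiple root -/
private theorem Loc_dbl {θ : Fin (d + 1) → Vd (k + 1) → ℂ} {y : Vd (k + 1)} {a : ℂ} {r : Fin d → EN 1}
    (h : ∀ v, Fo θ y v = a * ∏ i, dt (r i) v) {i j : Fin d} (hij : i ≠ j)
    (h0 : dt (r j) (r i) = 0) (w : EN 1) : Fd θ y (r i) w = 0 := by
  classical
  have hd : ∀ s : EN 1, Differentiable ℂ fun v : EN 1 => dt s v := Loc_dtd
  set g : EN 1 → ℂ := fun v => ∏ l ∈ ((Finset.univ : Finset (Fin d)).erase i).erase j, dt (r l) v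
    with hg
  have hgd : Differentiable ℂ g := by
    intro v
    exact (HasFDerivAt.finsetProd fun l _ => (hd (r l) v).hasFDerivAt).differentiableAt
  have h1 : Fo θ y = fun v => (a * dt (r i) v) * (dt (r j) v * g v) := by
    funext v
    rw [h v, ← Finset.mul_prod_erase Finset.univ (fun l => dt (r l) v) (Finset.mem_univ i),
      ← Finset.mul_prod_erase (Finset.univ.erase i) (fun l => dt (r l) v)
        (Finset.mem_erase.2 ⟨hij.symm, Finset.mem_univ j⟩), hg]
    ring
  have e1 : DifferentiableAt ℂ (fun v : EN 1 => a * dt (r i) v) (r i) :=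
    (differentiableAt_const a).mul (hd (r i) (r i))
  have e2 : DifferentiableAt ℂ (fun v : EN 1 => dt (r j) v * g v) (r i) :=
    (hd (r j) (r i)).mul (hgd (r i))
  unfold Fd
  rw [h1, fderiv_fun_mul e1 e2, dt_self, h0]
  simp

theorem roots_near {θ : Fin (d + 1) → Vd (k + 1) → ℂ} (hd : 0 < d) (han : ∀ i, Differentiable ℂ (θ i)) {y₀ : Vd (k + 1)} (hs : ∀ x : EN 1, x ≠ 0 → Fo θ y₀ x = 0 → ∃ v, Fd θ y₀ x v ≠ 0) :
    ∃ (ρ : ℝ) (r : Fin d → Vd (k + 1) → EN 1), 0 < ρ ∧ (∀ i, DifferentiableOn ℂ (r i) (ball y₀ ρ)) ∧ (∀ y ∈ ball y₀ ρ, ∀ i, r i y ≠ 0 ∧ Fo θ y (r i y) = 0) ∧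
      (∀ y ∈ ball y₀ ρ, ∀ i j, i ≠ j → dt (r i y) (r j y) ≠ 0) ∧ ∀ y ∈ ball y₀ ρ, ∀ v : EN 1, v ≠ 0 → Fo θ y v = 0 → ∃ i, dt (r i y) v = 0 := by
  classical
  have hc : Differentiable ℂ (tv θ) := by
    have h1 : (tv θ : Vd (k + 1) → EN d) = fun y => WithLp.toLp 2 fun i => θ i y := rfl
    rw [h1, differentiable_euclidean]
    exact fun i => han i
  have hcy : tv θ y₀ ≠ 0 := by
    intro h0
    have h1 : Fo θ y₀ = fun _ => 0 := by
      funext v
      rw [← bf_tv, h0, bf_zero]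
    obtain ⟨x, hx⟩ : ∃ x : EN 1, x ≠ 0 := exists_ne 0
    obtain ⟨v, hv⟩ := hs x hx (by rw [h1])
    apply hv
    unfold Fd
    rw [h1]
    simp
  obtain ⟨a, r, ha, hr, hfac⟩ := exists_split hcy
  have hfac' : ∀ v, Fo θ y₀ v = a * ∏ i, dt (r i) v := fun v => by rw [← bf_tv, hfac]
  have hpw : ∀ i j, i ≠ j → dt (r i) (r j) ≠ 0 := by
    intro i j hij h0
    have h1 : Fo θ y₀ (r j) = 0 := by
      rw [hfac', Finset.prod_eq_zero (Finset.mem_univ i) h0, mul_zero]
    obtain ⟨v, hv⟩ := hs (r j) (hr j) h1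
    exact hv (Loc_dbl hfac' (i := j) (j := i) hij.symm h0 v)
  obtain ⟨d', rfl⟩ : ∃ d', d = d' + 1 := ⟨d - 1, by omega⟩
  -- the factorizations
  have hloc : ∀ i : Fin (d' + 1), ∃ (ρ : ℝ) (A : Vd (k + 1) → EN 1), 0 < ρ ∧
      DifferentiableOn ℂ A (ball y₀ ρ) ∧ A y₀ = lf (r i) ∧
      ∀ y ∈ ball y₀ ρ, ∀ v, bf (A y) v = 0 → Fo θ y v = 0 := by
    intro i
    obtain ⟨φ, -, hφ⟩ := exists_pf d'
    obtain ⟨ρ, A, B, h1, -, h3, -, h5, -, h7⟩ := loc_fac (c := tv θ) (y₀ := y₀) (R := 1)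
      one_pos hc.differentiableOn (Nat.add_comm 1 d') (A₀ := lf (r i))
      (B₀ := a • φ fun l => r (i.succAbove l))
      (by
        intro v
        rw [hfac, bf_lf, bf_smul, hφ, Fin.prod_univ_succAbove _ i]
        ring)
      (by
        intro v hv hv0 hv1
        rw [bf_lf] at hv0
        rw [bf_smul, hφ] at hv1
        obtain ⟨s, rfl⟩ := (PX.dt_eq_zero (hr i)).1 hv0
        have hs0 : s ≠ 0 := by
          rintro rfl
          exact hv (zero_smul _ _)
        rcases mul_eq_zero.1 hv1 with h | h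
        · exact ha h
        · obtain ⟨l, -, hl⟩ := Finset.prod_eq_zero_iff.1 h
          have h8 : dt (r (i.succAbove l)) (s • r i) = s * dt (r (i.succAbove l)) (r i) := by
            unfold dt
            simp only [PiLp.smul_apply, smul_eq_mul]
            ring
          rw [h8] at hl
          rcases mul_eq_zero.1 hl with h | h
          · exact hs0 h
          · exact hpw _ _ (Fin.succAbove_ne i l) h)
    refine ⟨ρ, A, h1, h3, h5, fun y hy v hv => ?_⟩
    rw [← bf_tv, h7 y hy, hv, zero_mul]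
  choose ρ A hρ hA hA0 hAz using hloc
  have hAc : ∀ i, ContinuousAt (fun y => rt (A i y)) y₀ := fun i =>
    rt_diff.continuous.continuousAt.comp
      ((hA i).differentiableAt (isOpen_ball.mem_nhds (mem_ball_self (hρ i)))).continuousAt
  have hrt : ∀ i, rt (A i y₀) = r i := by
    intro i
    rw [hA0]
    ext j
    fin_cases j
    · simp [rt, lf]
    · simp [rt, lf]
  have e1 : ∀ᶠ y in 𝓝 y₀, ∀ i, y ∈ ball y₀ (ρ i) :=
    Filter.eventually_all.2 fun i => isOpen_ball.mem_nhds (mem_ball_self (hρ i))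
  have e2 : ∀ᶠ y in 𝓝 y₀, ∀ i, rt (A i y) ≠ 0 :=
    Filter.eventually_all.2 fun i => (hAc i).eventually_ne (by rw [hrt]; exact hr i)
  have e3 : ∀ᶠ y in 𝓝 y₀, ∀ i j, i ≠ j → dt (rt (A i y)) (rt (A j y)) ≠ 0 := by
    refine Filter.eventually_all.2 fun i => Filter.eventually_all.2 fun j => ?_
    by_cases hij : i = j
    · exact Filter.Eventually.of_forall fun y h => absurd hij h
    · have h1 : ContinuousAt (fun y => dt (rt (A i y)) (rt (A j y))) y₀ :=
        Loc_dtc (hAc i) (hAc j)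
      have h2 := h1.eventually_ne (y := (0 : ℂ)) (by
        show dt (rt (A i y₀)) (rt (A j y₀)) ≠ 0
        rw [hrt, hrt]
        exact hpw i j hij)
      exact h2.mono fun y hy _ => hy
  have e4 : ∀ᶠ y in 𝓝 y₀, tv θ y ≠ 0 := hc.continuous.continuousAt.eventually_ne hcy
  obtain ⟨ρ', hρ', hb⟩ := Metric.eventually_nhds_iff_ball.1 (((e1.and e2).and e3).and e4)
  refine ⟨ρ', fun i y => rt (A i y), hρ', fun i y hy => ?_, fun y hy i => ?_,
    fun y hy => (hb y hy).1.2, fun y hy v hv hv0 => ?_⟩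
  · have h1 := (hA i).differentiableAt (isOpen_ball.mem_nhds ((hb y hy).1.1.1 i))
    exact (rt_diff.differentiableAt.comp y h1).differentiableWithinAt
  · refine ⟨(hb y hy).1.1.2 i, hAz i y ((hb y hy).1.1.1 i) _ ?_⟩
    rw [← dt_rt, dt_self]
  · by_contra hne
    push Not at hne
    refine (hb y hy).2 (bf_roots_le (s := d' + 1 + 1) (Fin.cons v fun i => rt (A i y)) ?_ ?_
      (Nat.lt_succ_self _))
    · have hsym : ∀ x y : EN 1, dt x y = - dt y x := by
        intro x y
        unfold dt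
        ring
      intro i j
      refine Fin.cases ?_ (fun i' => ?_) i
      · refine Fin.cases ?_ (fun j' => ?_) j
        · exact fun h => absurd rfl h
        · intro _
          rw [Fin.cons_zero, Fin.cons_succ, hsym]
          exact neg_ne_zero.2 (hne j')
      · refine Fin.cases ?_ (fun j' => ?_) j
        · intro _
          rw [Fin.cons_zero, Fin.cons_succ]
          exact hne i'
        · intro h
          rw [Fin.cons_succ, Fin.cons_succ]
          exact (hb y hy).1.2 i' j' fun h1 => h (congrArg Fin.succ h1)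
    · intro i
      refine Fin.cases ?_ (fun i' => ?_) i
      · rw [Fin.cons_zero, bf_tv, hv0]
      · rw [Fin.cons_succ, bf_tv]
        refine hAz i' y ((hb y hy).1.1.1 i') _ ?_
        rw [← dt_rt, dt_self]

end Pool.Agent.TM
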