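import Pool.Agent.H94.PX4.M45
import Pool.Agent.H94.PX4.M76
import Pool.Agent.H94.PX4.M87

/-!
# TM Ext: the factorization defined by some of the roots

`Sl θ D y a n Z`: off `D` the `n` selected roots are locally holomorphic.  Let `γ z ∈ MN n` be the class of the product of the linear forms of the selected roots (`exists_pf`).
* Off `D`: `LLift γ z` (`Φ ζ = φ (fun i => r i ζ)`).
* Near `z₀` with `y + z₀ a ∈ D`: all points `z ≠ z₀` near `z₀` are off `D` (`P.iso`).  Divide `ζ ↦ tv θ (y + ζ a)` by a power of `ζ - z₀` (it is not identically `0`, see `Hit_div` and `PD.any_hit` in `PX/Hit.lean`): `t ζ ∈ EN d`, `t z₀ ≠ 0`; `b` with `bf (t z₀) b ≠ 0`, `e` with `dt b e ≠ 0`; near `z₀`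
  the roots are the multiples of `s b + e` with bounded `s`.  The representative `G ζ` of `γ ζ` with `bf (G ζ) b = 1` is holomorphic for `ζ ≠ z₀` and bounded (`exists_pf`, continuity, `|dt (s b + e) b| = |dt e b|`), so it extends to `z₀`; `bf (G z₀) b = 1`, so `G z₀ ≠ 0`.
* The extended `γ` has local lifts everywhere, so an entire lift `G` (`G3.entire_lift`).  Off `D` the `n` selected roots are exactly the roots of `G z` (`bf_roots_le`), so `tv θ (y + z a) = G z * H z` (`exists_quo`), and by continuity (closed condition; local left inverse) for all `z`: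
  for `z₀` choose `n' + 1` vectors `v_i`, pairwise `dt (v_i) (v_j) ≠ 0`, with `bf (G z₀) (v_i) ≠ 0`; the linear map `H ↦ (bf H (v_i))_i` from `EN n'` is an isomorphism (`bf_roots_le`); define `H ζ` near `z₀` by `bf (H ζ) (v_i) = Fo θ (y + ζ a) (v_i) / bf (G ζ) (v_i)`: holomorphic; the identity
  `Fo θ (y + ζ a) v = bf (G ζ) v * bf (H ζ) v` holds off `D` and by continuity also at `z₀`; `H ζ` is unique because `G ζ ≠ 0`, so the local `H` fit together.
-/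

set_option autoImplicit false

open Topology Filter Metric

namespace Pool.Agent.TM

open Pool.Agent.H36.BP (EN)
open Pool.Agent.H62.EF (MN pr)
open Pool.Agent.AD (Vd)
open Pool.Agent.TG (Lat)
open Pool.Agent.G3 (wt LLift)
open Pool.Agent.PX (Fo Fd dt PD)

variable {k d r n m n' : ℕ} {Λ : AddSubgroup (Vd (k + 1))} {D : Set (Vd (k + 1))} {Bad : Vd (k + 1) → Set (Vd (k + 1))} {θ : Fin (d + 1) → Vd (k + 1) → ℂ} {W : Fin r → Vd (k + 1) →L[ℂ] ℂ}

/-- the vector with the coordinates `t`, `1` -/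
private noncomputable def vt (t : ℂ) : EN 1 := WithLp.toLp 2 ![t, 1]

private theorem dt_vt (s t : ℂ) : dt (vt s) (vt t) = s - t := by
  have h0 : (vt s) 0 = s := rfl
  have h1 : (vt s) 1 = 1 := rfl
  have h2 : (vt t) 0 = t := rfl
  have h3 : (vt t) 1 = 1 := rfl
  unfold dt
  rw [h0, h1, h2, h3]
  ring

private theorem dt_self (x : EN 1) : dt x x = 0 := by
  unfold dt
  ring

private theorem dtd (b : EN 1) : Differentiable ℂ fun x : EN 1 => dt b x := by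
  unfold dt
  have h0 : Differentiable ℂ fun x : EN 1 => x 0 := (EuclideanSpace.proj (𝕜 := ℂ) (0 : Fin (1 + 1)) : EN 1 →L[ℂ] ℂ).differentiable
  have h1 : Differentiable ℂ fun x : EN 1 => x 1 := (EuclideanSpace.proj (𝕜 := ℂ) (1 : Fin (1 + 1)) : EN 1 →L[ℂ] ℂ).differentiable
  exact (h1.const_mul _).sub (h0.const_mul _)

private theorem dt_smul' (b x : EN 1) (c : ℂ) : dt (c • x) b = c * dt x b := by
  unfold dt
  simp only [PiLp.smul_apply, smul_eq_mul]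
  ring

private theorem dt_swap' (b x : EN 1) : dt x b = -dt b x := by
  unfold dt
  ring

private theorem exists_vs {c : EN n} (hc : c ≠ 0) (s : ℕ) : ∃ v : Fin s → EN 1, (∀ i j, i ≠ j → dt (v i) (v j) ≠ 0) ∧ ∀ i, bf c (v i) ≠ 0 := by
  have hfin : {t : ℂ | bf c (vt t) = 0}.Finite := by
    by_contra hinf
    have hinf' : {t : ℂ | bf c (vt t) = 0}.Infinite := hinf
    have := hinf'.to_subtype
    obtain ⟨f, hf⟩ : ∃ f : ℕ → {t : ℂ | bf c (vt t) = 0}, Function.Injective f := ⟨_, (Infinite.natEmbedding {t : ℂ | bf c (vt t) = 0}).injective⟩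
    apply hc
    refine bf_roots_le (s := n + 1) (fun i => vt (f i)) ?_ ?_ (Nat.lt_succ_self n)
    · intro i j hij
      rw [dt_vt]
      intro h
      apply hij
      exact Fin.ext (hf (Subtype.ext (sub_eq_zero.1 h)))
    · intro i
      exact (f i).2
  have hinf : ({t : ℂ | bf c (vt t) = 0}ᶜ).Infinite := hfin.infinite_compl
  have := hinf.to_subtype
  obtain ⟨f, hf⟩ : ∃ f : ℕ → ({t : ℂ | bf c (vt t) = 0}ᶜ : Set ℂ), Function.Injective f := ⟨_, (Infinite.natEmbedding ({t : ℂ | bf c (vt t) = 0}ᶜ : Set ℂ)).injective⟩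
  refine ⟨fun i => vt (f i), ?_, fun i => (f i).2⟩
  intro i j hij
  rw [dt_vt]
  intro h
  apply hij
  exact Fin.ext (hf (Subtype.ext (sub_eq_zero.1 h)))

private theorem bf_lin (c c' : EN n) (κ : ℂ) (v : EN 1) : bf (c + κ • c') v = bf c v + κ * bf c' v := by
  rw [bf_add, bf_smul]

private theorem eq_of_lin {c c' : EN n} {κ : ℂ} (h : c + (-κ) • c' = 0) : c = κ • c' := by
  rw [neg_smul] at h
  exact add_neg_eq_zero.1 h

/-- cancellation of a factor which is not `0` -/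
private theorem bf_cancel {G : EN n} (hG : G ≠ 0) {H H' : EN n'} (h : ∀ v, bf G v * bf H v = bf G v * bf H' v) : H = H' := by
  obtain ⟨v, hv, hv'⟩ := exists_vs hG (n' + 1)
  have h1 : H + (-1 : ℂ) • H' = 0 := by
    refine bf_roots_le v hv (fun i => ?_) (Nat.lt_succ_self n')
    rw [bf_lin, mul_left_cancel₀ (hv' i) (h (v i))]
    ring
  have h2 := eq_of_lin h1
  rw [h2, one_smul]

/-- forms with the same roots are proportional -/
private theorem prop_of_roots {c c' : EN n} (hc : c ≠ 0) (r : Fin n → EN 1) (hr : ∀ i j, i ≠ j → dt (r i) (r j) ≠ 0) (h0 : ∀ i, r i ≠ 0) (h : ∀ i, bf c (r i) = 0) (h' : ∀ i, bf c' (r i) = 0) :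
    ∃ κ : ℂ, c' = κ • c := by
  obtain ⟨v, -, hv⟩ := exists_vs hc 1
  have hv0 := hv 0
  refine ⟨bf c' (v 0) / bf c (v 0), eq_of_lin ?_⟩
  have h1 : ∀ i, dt (r i) (v 0) ≠ 0 := by
    intro i h2
    obtain ⟨s, hs⟩ := (Pool.Agent.PX.dt_eq_zero (h0 i)).1 h2
    apply hv0
    rw [hs, bf_smul_v, h i, mul_zero]
  have h2 : ∀ i, dt (v 0) (r i) ≠ 0 := by
    intro i
    rw [dt_swap' (r i) (v 0)]
    exact neg_ne_zero.2 (h1 i)
  refine bf_roots_le (s := n + 1) (Fin.cons (v 0) r) ?_ ?_ (Nat.lt_succ_self n)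
  · intro i j
    refine Fin.cases ?_ (fun i => ?_) i
    · refine Fin.cases ?_ (fun j => ?_) j
      · intro h3
        exact absurd rfl h3
      · intro _
        rw [Fin.cons_zero, Fin.cons_succ]
        exact h2 j
    · refine Fin.cases ?_ (fun j => ?_) j
      · intro _
        rw [Fin.cons_zero, Fin.cons_succ]
        exact h1 i
      · intro h3
        rw [Fin.cons_succ, Fin.cons_succ]
        exact hr i j fun h4 => h3 (by rw [h4])
  · intro i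
    refine Fin.cases ?_ (fun i => ?_) i
    · rw [Fin.cons_zero, bf_lin, neg_mul, div_mul_cancel₀ _ hv0]
      ring
    · rw [Fin.cons_succ, bf_lin, h i, h' i]
      ring

/-- proportional forms with the same value which is not `0` are equal -/
private theorem eq_of_roots {c c' : EN n} {b : EN 1} (hb : bf c b ≠ 0) (hbb : bf c' b = bf c b) (r : Fin n → EN 1) (hr : ∀ i j, i ≠ j → dt (r i) (r j) ≠ 0) (h0 : ∀ i, r i ≠ 0)
    (h : ∀ i, bf c (r i) = 0) (h' : ∀ i, bf c' (r i) = 0) : c' = c := by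
  have hc : c ≠ 0 := by
    intro h1
    rw [h1] at hb
    exact hb (bf_zero b)
  obtain ⟨κ, hκ⟩ := prop_of_roots hc r hr h0 h h'
  rw [hκ, bf_smul] at hbb
  have h1 : κ = 1 := mul_right_cancel₀ hb (by rw [hbb, one_mul])
  rw [hκ, h1, one_smul]

private theorem prod_roots {φ : (Fin n → EN 1) → EN n} (hφ : ∀ r v, bf (φ r) v = ∏ i, dt (r i) v) (r : Fin n → EN 1) (v : EN 1) : bf (φ r) v = 0 ↔ ∃ i, dt (r i) v = 0 := by
  rw [hφ, Finset.prod_eq_zero_iff]
  simp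

/-- the points of the line near `z₀` are off `D` -/
private theorem off_near (P : PD Λ D Bad θ W) {y a : Vd (k + 1)} (ha : a ≠ 0) (z₀ : ℂ) : ∀ᶠ z in 𝓝[≠] z₀, y + z • a ∉ D := by
  have h1 := P.iso a ha (y + z₀ • a)
  have h2 : Tendsto (fun z : ℂ => z - z₀) (𝓝[≠] z₀) (𝓝[≠] 0) := by
    refine tendsto_nhdsWithin_iff.2 ⟨?_, ?_⟩
    · have h3 : Tendsto (fun z : ℂ => z - z₀) (𝓝 z₀) (𝓝 (z₀ - z₀)) := (continuous_id.sub continuous_const).tendsto z₀
      rw [sub_self] at h3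
      exact h3.mono_left nhdsWithin_le_nhds
    · filter_upwards [self_mem_nhdsWithin] with z hz
      exact sub_ne_zero.2 hz
  filter_upwards [h2.eventually h1] with z hz
  have h3 : y + z₀ • a + (z - z₀) • a = y + z • a := by
    rw [sub_smul]
    abel
  rw [h3] at hz
  exact hz

/-- division of finitely many functions by a power of `z - z₀` -/
private theorem fn_div {n : ℕ} {f : Fin n → ℂ → ℂ} {z₀ : ℂ} (hf : ∀ i, AnalyticAt ℂ (f i) z₀)
    (h0 : ∃ i, ¬ ∀ᶠ z in 𝓝 z₀, f i z = 0) : ∃ (m : ℕ) (F : Fin n → ℂ → ℂ), (∀ i, AnalyticAt ℂ (F i) z₀) ∧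
    (∀ i, ∀ᶠ z in 𝓝 z₀, f i z = (z - z₀) ^ m * F i z) ∧ ∃ i, F i z₀ ≠ 0 := by
  obtain ⟨i₁, hi₁⟩ := h0
  obtain ⟨i₀, -, hmin⟩ := Finset.exists_min_image Finset.univ (fun i => analyticOrderAt (f i) z₀) ⟨i₁, Finset.mem_univ _⟩
  have h1 : analyticOrderAt (f i₀) z₀ ≠ ⊤ := by
    intro h
    have h2 := hmin i₁ (Finset.mem_univ _)
    rw [h, top_le_iff, analyticOrderAt_eq_top] at h2
    exact hi₁ h2
  obtain ⟨m, hm⟩ := ENat.ne_top_iff_exists.1 h1
  have h2 : ∀ i, ∃ g : ℂ → ℂ, AnalyticAt ℂ g z₀ ∧ ∀ᶠ z in 𝓝 z₀, f i z = (z - z₀) ^ m • g z := by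
    intro i
    have h3 := hmin i (Finset.mem_univ _)
    rw [← hm] at h3
    exact (natCast_le_analyticOrderAt (hf i)).1 h3
  choose F hF hFf using h2
  refine ⟨m, F, hF, hFf, i₀, ?_⟩
  obtain ⟨g, hg, hg0, hgf⟩ := ((hf i₀).analyticOrderAt_eq_natCast).1 hm.symm
  have h4 : ∀ᶠ z in 𝓝[≠] z₀, F i₀ z = g z := by
    filter_upwards [(hFf i₀).filter_mono nhdsWithin_le_nhds, hgf.filter_mono nhdsWithin_le_nhds, self_mem_nhdsWithin] with z h5 h6 h7
    rw [h5, smul_eq_mul, smul_eq_mul] at h6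
    exact mul_left_cancel₀ (pow_ne_zero m (sub_ne_zero.2 h7)) h6
  have h5 : F i₀ z₀ = g z₀ := by
    have h6 : Tendsto (F i₀) (𝓝[≠] z₀) (𝓝 (F i₀ z₀)) := (hF i₀).continuousAt.tendsto.mono_left nhdsWithin_le_nhds
    have h7 : Tendsto (F i₀) (𝓝[≠] z₀) (𝓝 (g z₀)) := (hg.continuousAt.tendsto.mono_left nhdsWithin_le_nhds).congr' (h4.mono fun z hz => hz.symm)
    exact tendsto_nhds_unique h6 h7
  rw [h5]
  exact hg0

/-- near a point of the line the roots are bounded in a suitable chart -/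
private theorem near (P : PD Λ D Bad θ W) {y a : Vd (k + 1)} (ha : a ≠ 0) (z₀ : ℂ) :
    ∃ (ρ M : ℝ) (b : EN 1), 0 < ρ ∧ (∀ z ∈ ball z₀ ρ, z ≠ z₀ → y + z • a ∉ D) ∧
      ∀ z ∈ ball z₀ ρ, z ≠ z₀ → ∀ x : EN 1, x ≠ 0 → Fo θ (y + z • a) x = 0 → dt b x ≠ 0 ∧ ‖(dt b x)⁻¹ • x‖ ≤ M := by
  have hline : Differentiable ℂ fun z : ℂ => y + z • a := by fun_prop
  have hoff := off_near P (y := y) ha z₀
  have hfa : ∀ i, AnalyticAt ℂ (fun z : ℂ => θ i (y + z • a)) z₀ := fun i =>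
    ((P.an i).comp hline).analyticAt z₀
  -- off `D` the form is not `0`
  have hnz : ∀ y' ∉ D, ∃ i, θ i y' ≠ 0 := by
    intro y' hy'
    by_contra h
    push Not at h
    have h0 : ∀ x, Fo θ y' x = 0 := by
      intro x
      unfold Fo
      refine Finset.sum_eq_zero fun i _ => ?_
      rw [h i, zero_mul, zero_mul]
    obtain ⟨x, hx⟩ := exists_ne (0 : EN 1)
    obtain ⟨v, hv⟩ := P.simple y' hy' x hx (h0 x)
    apply hv
    unfold Fd
    have h1 : Fo θ y' = fun _ => 0 := funext h0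
    rw [h1]
    simp
  obtain ⟨m, F, hF, hFf, i₀, hi₀⟩ := fn_div (f := fun i z => θ i (y + z • a)) hfa (by
    by_contra h
    push Not at h
    have h1 : ∀ᶠ z in 𝓝[≠] z₀, ∀ i, θ i (y + z • a) = 0 :=
      (Filter.eventually_all.2 h).filter_mono nhdsWithin_le_nhds
    obtain ⟨z, hz1, hz2⟩ := (h1.and hoff).exists
    obtain ⟨i, hi⟩ := hnz _ hz2
    exact hi (hz1 i))
  -- the divided form
  obtain ⟨Φ, hΦ⟩ : ∃ Φ : ℂ → Fin (d + 1) → Vd (k + 1) → ℂ, Φ = fun z i _ => F i z := ⟨_, rfl⟩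
  have hΦe : ∀ z x, Fo (Φ z) 0 x = ∑ i : Fin (d + 1), F i z * x 0 ^ (i : ℕ) * x 1 ^ (d - (i : ℕ)) := by
    intro z x
    rw [hΦ]
    rfl
  have hΦ0 : tv (Φ z₀) 0 ≠ 0 := by
    intro h
    apply hi₀
    have h1 : (tv (Φ z₀) 0) i₀ = F i₀ z₀ := by
      rw [hΦ]
      rfl
    rw [← h1, h]
    rfl
  obtain ⟨vb, -, hvb⟩ := exists_vs hΦ0 1
  obtain ⟨b, hbv⟩ : ∃ b : EN 1, b = vb 0 := ⟨_, rfl⟩
  have hΦb : Fo (Φ z₀) 0 b ≠ 0 := by
    rw [hbv]
    exact hvb 0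
  have hb0 : b ≠ 0 := by
    intro h
    apply hΦb
    have hd : d ≠ 0 := by have := P.deg; omega
    have h1 := Pool.Agent.PX.fo_smul (Φ z₀) 0 0 b
    rw [zero_smul, zero_pow hd, zero_mul] at h1
    rw [h]
    exact h1
  obtain ⟨e, hbe⟩ : ∃ e : EN 1, dt b e = 1 := by
    have h1 : b 0 ≠ 0 ∨ b 1 ≠ 0 := by
      by_contra h
      push Not at h
      apply hb0
      ext i
      fin_cases i
      · exact h.1
      · exact h.2
    rcases h1 with h1 | h1
    · refine ⟨WithLp.toLp 2 ![0, (b 0)⁻¹], ?_⟩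
      change b 0 * (b 0)⁻¹ - b 1 * 0 = 1
      rw [mul_inv_cancel₀ h1, mul_zero, sub_zero]
    · refine ⟨WithLp.toLp 2 ![-(b 1)⁻¹, 0], ?_⟩
      change b 0 * 0 - b 1 * -(b 1)⁻¹ = 1
      rw [mul_zero, mul_neg, mul_inv_cancel₀ h1]
      ring
  have hFo : ∀ᶠ z in 𝓝 z₀, ∀ x, Fo θ (y + z • a) x = (z - z₀) ^ m * Fo (Φ z) 0 x := by
    filter_upwards [Filter.eventually_all.2 hFf] with z hz x
    rw [hΦe, Finset.mul_sum]
    unfold Fo
    refine Finset.sum_congr rfl fun i _ => ?_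
    rw [hz i]
    ring
  -- continuity of the divided form at `(z₀, b)`
  have hcont : ContinuousAt (fun p : ℂ × EN 1 => Fo (Φ p.1) 0 p.2) (z₀, b) := by
    have h1 : (fun p : ℂ × EN 1 => Fo (Φ p.1) 0 p.2) = fun p => ∑ i : Fin (d + 1), F i p.1 * p.2 0 ^ (i : ℕ) * p.2 1 ^ (d - (i : ℕ)) := by
      funext p
      exact hΦe _ _
    rw [h1]
    refine tendsto_finsetSum _ fun i _ => ?_
    have h2 : ContinuousAt (fun p : ℂ × EN 1 => F i p.1) (z₀, b) :=
      ContinuousAt.comp (g := F i) (f := Prod.fst) (hF i).continuousAt continuousAt_fst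
    have h3 : ContinuousAt (fun p : ℂ × EN 1 => p.2 0 ^ (i : ℕ)) (z₀, b) := by fun_prop
    have h4 : ContinuousAt (fun p : ℂ × EN 1 => p.2 1 ^ (d - (i : ℕ))) (z₀, b) := by fun_prop
    exact (h2.mul h3).mul h4
  obtain ⟨η, hη, hne⟩ := Metric.eventually_nhds_iff.1 (hcont.eventually_ne hΦb)
  obtain ⟨ρ₁, hρ₁, h₁⟩ := Metric.eventually_nhds_iff.1 hFo
  obtain ⟨ρ₂, hρ₂, h₂⟩ := Metric.mem_nhdsWithin_iff.1 hoff
  obtain ⟨ρ, hρ⟩ : ∃ ρ : ℝ, ρ = min η (min ρ₁ ρ₂) := ⟨_, rfl⟩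
  have hρ0 : 0 < ρ := by
    rw [hρ]
    exact lt_min hη (lt_min hρ₁ hρ₂)
  have hρη : ρ ≤ η := by rw [hρ]; exact min_le_left _ _
  have hρ1 : ρ ≤ ρ₁ := by rw [hρ]; exact (min_le_right _ _).trans (min_le_left _ _)
  have hρ2 : ρ ≤ ρ₂ := by rw [hρ]; exact (min_le_right _ _).trans (min_le_right _ _)
  have hD : ∀ z ∈ ball z₀ ρ, z ≠ z₀ → y + z • a ∉ D := fun z hz hz' =>
    h₂ ⟨ball_subset_ball hρ2 hz, hz'⟩
  have hFz : ∀ z ∈ ball z₀ ρ, ∀ x, Fo θ (y + z • a) x = (z - z₀) ^ m * Fo (Φ z) 0 x := fun z hz =>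
    h₁ (lt_of_lt_of_le (mem_ball.1 hz) hρ1)
  have hnez : ∀ z ∈ ball z₀ ρ, ∀ x : EN 1, dist x b < η → Fo (Φ z) 0 x ≠ 0 := by
    intro z hz x hx
    refine hne (y := ((z, x) : ℂ × EN 1)) ?_
    rw [Prod.dist_eq]
    exact max_lt (lt_of_lt_of_le (mem_ball.1 hz) hρη) hx
  refine ⟨ρ, ‖e‖ / η * ‖b‖ + ‖e‖, b, hρ0, hD, fun z hz hz' x hx h => ?_⟩
  have hp : (z - z₀) ^ m ≠ 0 := pow_ne_zero m (sub_ne_zero.2 hz')
  have h3 : Fo (Φ z) 0 x = 0 := by
    rw [hFz z hz x] at h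
    exact (mul_eq_zero.1 h).resolve_left hp
  have h4 := Pool.Agent.PX.rt_dt (θ := Φ z) (y := 0) (b := b) (e := e) (x := x) (by rw [hbe]; exact one_ne_zero)
    (hnez z hz b (by rw [dist_self]; exact hη)) hx h3
  rw [hbe, div_one] at h4
  refine ⟨h4.1, ?_⟩
  obtain ⟨T, hT⟩ : ∃ T : ℂ, T = -(dt e x) / dt b x := ⟨_, rfl⟩
  have h4' := h4.2
  rw [← hT] at h4'
  have hTb : ‖T‖ ≤ ‖e‖ / η := by
    by_contra h5
    push Not at h5
    have hT0 : T ≠ 0 := by
      intro h6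
      rw [h6, norm_zero] at h5
      have : 0 ≤ ‖e‖ / η := by positivity
      linarith
    have hTn : 0 < ‖T‖ := norm_pos_iff.2 hT0
    have h6 : Fo (Φ z) 0 (b + T⁻¹ • e) ≠ 0 := by
      refine hnez z hz _ ?_
      rw [dist_eq_norm, add_sub_cancel_left, norm_smul, norm_inv, inv_mul_lt_iff₀ hTn]
      rwa [div_lt_iff₀ hη] at h5
    apply h6
    have h7 : x = (dt b x * T) • (b + T⁻¹ • e) := by
      conv_lhs => rw [h4']
      rw [mul_smul, smul_add T, smul_smul T, mul_inv_cancel₀ hT0, one_smul]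
    rw [h7, Pool.Agent.PX.fo_smul] at h3
    exact (mul_eq_zero.1 h3).resolve_left (pow_ne_zero d (mul_ne_zero h4.1 hT0))
  have h8 : (dt b x)⁻¹ • x = T • b + e := by
    conv_lhs => rw [h4']
    have h9 : dt b ((dt b x) • (T • b + e)) = dt b x := by
      rw [← h4']
    rw [h9, smul_smul, inv_mul_cancel₀ h4.1, one_smul]
  rw [h8]
  refine (norm_add_le _ _).trans ?_
  rw [norm_smul]
  gcongr

private theorem pf_ne {φ : (Fin n → EN 1) → EN n} (hφ : ∀ r v, bf (φ r) v = ∏ i, dt (r i) v) {r : Fin n → EN 1} (h0 : ∀ i, r i ≠ 0) : φ r ≠ 0 := by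
  intro h
  have h1 : ∀ j : Fin (n + 1), ∃ i, dt (r i) (vt ((j : ℕ) : ℂ)) = 0 := by
    intro j
    rw [← prod_roots hφ, h, bf_zero]
  choose f hf using h1
  obtain ⟨j, j', hjj, hff⟩ := Fintype.exists_ne_map_eq_of_card_lt f (by simp)
  obtain ⟨c, hc⟩ := (Pool.Agent.PX.dt_eq_zero (h0 (f j))).1 (hf j)
  obtain ⟨c', hc'⟩ := (Pool.Agent.PX.dt_eq_zero (h0 (f j))).1 (by rw [hff]; exact hf j')
  have h2 : dt (vt ((j : ℕ) : ℂ)) (vt ((j' : ℕ) : ℂ)) = 0 := by
    rw [hc, hc', dt_smul', dt_swap', dt_smul', dt_self]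
    ring
  rw [dt_vt, sub_eq_zero] at h2
  exact hjj (Fin.ext (by exact_mod_cast h2))

/-- the local factor -/
private theorem loc_g (P : PD Λ D Bad θ W) {y a : Vd (k + 1)} (ha : a ≠ 0) {Z : ℂ → EN 1 → Prop} (hS : Sl θ D y a n Z) (z₀ : ℂ) :
    ∃ (ρ : ℝ) (Φ : ℂ → EN n), 0 < ρ ∧ DifferentiableOn ℂ Φ (ball z₀ ρ) ∧ (∀ z ∈ ball z₀ ρ, Φ z ≠ 0) ∧ (∀ z ∈ ball z₀ ρ, z ≠ z₀ → y + z • a ∉ D) ∧
      ∀ z ∈ ball z₀ ρ, y + z • a ∉ D → ∀ v : EN 1, v ≠ 0 → (Z z v ↔ bf (Φ z) v = 0) := by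
  obtain ⟨φ, hφd, hφ⟩ := exists_pf n
  by_cases hz₀ : y + z₀ • a ∉ D
  · obtain ⟨ρ, r, hρ, hr, h⟩ := hS z₀ hz₀
    have hroot : ∀ z ∈ ball z₀ ρ, ∀ v : EN 1, v ≠ 0 → (Z z v ↔ bf (φ fun i => r i z) v = 0) := by
      intro z hz v hv
      rw [prod_roots hφ]
      exact (h z hz).2.2.2 v hv
    refine ⟨ρ, fun z => φ fun i => r i z, hρ, ?_, ?_, fun z hz _ => (h z hz).1, fun z hz _ => hroot z hz⟩
    · exact hφd.comp_differentiableOn (differentiableOn_pi.2 hr)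
    · intro z hz
      exact pf_ne hφ fun i => ((h z hz).2.1 i).1
  · have hz₀' : y + z₀ • a ∈ D := not_not.1 hz₀
    obtain ⟨ρ, M, b, hρ, hD, hb⟩ := near P (y := y) ha z₀
    choose! R r hR using hS
    obtain ⟨Ψ, hΨ⟩ : ∃ Ψ : ℂ → ℂ → EN n, Ψ = fun z w => φ fun i => (dt b (r z i w))⁻¹ • r z i w := ⟨_, rfl⟩
    have hne : ∀ z, y + z • a ∉ D → ∀ w ∈ ball z (R z), w ∈ ball z₀ ρ → w ≠ z₀ → ∀ i, dt b (r z i w) ≠ 0 ∧ ‖(dt b (r z i w))⁻¹ • r z i w‖ ≤ M := by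
      intro z hz w hw hw1 hw2 i
      have h1 := ((hR z hz).2.2 w hw).2.1 i
      exact hb w hw1 hw2 _ h1.1 h1.2
    have hval : ∀ z, y + z • a ∉ D → ∀ w ∈ ball z (R z), w ∈ ball z₀ ρ → w ≠ z₀ → bf (Ψ z w) b = (-1) ^ n := by
      intro z hz w hw hw1 hw2
      rw [hΨ]
      simp only
      rw [hφ]
      have h1 : ∀ i, dt ((dt b (r z i w))⁻¹ • r z i w) b = -1 := by
        intro i
        rw [dt_smul', dt_swap' b, mul_neg, inv_mul_cancel₀ (hne z hz w hw hw1 hw2 i).1]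
      rw [Finset.prod_congr rfl fun i _ => h1 i, Finset.prod_const, Finset.card_univ, Fintype.card_fin]
    have hZ : ∀ z, y + z • a ∉ D → ∀ w ∈ ball z (R z), w ∈ ball z₀ ρ → w ≠ z₀ → ∀ v : EN 1, v ≠ 0 → (Z w v ↔ bf (Ψ z w) v = 0) := by
      intro z hz w hw hw1 hw2 v hv
      rw [hΨ]
      simp only
      rw [prod_roots hφ, ((hR z hz).2.2 w hw).2.2.2 v hv]
      refine exists_congr fun i => ?_
      rw [dt_smul', mul_eq_zero, or_iff_right (inv_ne_zero (hne z hz w hw hw1 hw2 i).1)]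
    have heq : ∀ z, y + z • a ∉ D → ∀ w ∈ ball z (R z), w ∈ ball z₀ ρ → w ≠ z₀ → Ψ w w = Ψ z w := by
      intro z hz w hw hw1 hw2
      have hwD := hD w hw1 hw2
      have hww : w ∈ ball w (R w) := mem_ball_self (hR w hwD).1
      have h1 := (hR z hz).2.2 w hw
      refine eq_of_roots (b := b) ?_ ?_ (fun i => r z i w) h1.2.2.1 (fun i => (h1.2.1 i).1) ?_ ?_
      · rw [hval z hz w hw hw1 hw2]
        exact pow_ne_zero _ (neg_ne_zero.2 one_ne_zero)
      · rw [hval z hz w hw hw1 hw2, hval w hwD w hww hw1 hw2]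
      · intro i
        rw [← hZ z hz w hw hw1 hw2 _ (h1.2.1 i).1, h1.2.2.2 _ (h1.2.1 i).1]
        exact ⟨i, dt_self _⟩
      · intro i
        rw [← hZ w hwD w hww hw1 hw2 _ (h1.2.1 i).1, h1.2.2.2 _ (h1.2.1 i).1]
        exact ⟨i, dt_self _⟩
    obtain ⟨Γ, hΓ⟩ : ∃ Γ : ℂ → EN n, Γ = fun w => Ψ w w := ⟨_, rfl⟩
    have hd : DifferentiableOn ℂ Γ (ball z₀ ρ \ {z₀}) := by
      rintro z ⟨hz, hz'⟩
      have hz1 : z ≠ z₀ := hz'
      have hzD := hD z hz hz1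
      have hzz : z ∈ ball z (R z) := mem_ball_self (hR z hzD).1
      have h1 : ∀ i, DifferentiableAt ℂ (r z i) z := fun i => (((hR z hzD).2.1 i) z hzz).differentiableAt (ball_mem_nhds z (hR z hzD).1)
      have h2 : DifferentiableAt ℂ (Ψ z) z := by
        rw [hΨ]
        refine (hφd _).comp z (differentiableAt_pi.2 fun i => ?_)
        have h3 : DifferentiableAt ℂ (fun w => dt b (r z i w)) z := ((dtd b) (r z i z)).comp z (h1 i)
        exact (h3.inv (hne z hzD z hzz hz hz1 i).1).smul (h1 i)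
      have h4 : Γ =ᶠ[𝓝 z] Ψ z := by
        filter_upwards [ball_mem_nhds z (hR z hzD).1, isOpen_ball.mem_nhds hz, isOpen_ne.mem_nhds hz1] with w hw1 hw2 hw3
        rw [hΓ]
        exact heq z hzD w hw1 hw2 hw3
      exact (h2.congr_of_eventuallyEq h4).differentiableWithinAt
    have hcomp : IsCompact (Set.pi Set.univ fun _ : Fin n => closedBall (0 : EN 1) M) := isCompact_univ_pi fun _ => isCompact_closedBall 0 M
    obtain ⟨C, hC⟩ := hcomp.exists_bound_of_continuousOn hφd.continuous.continuousOn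
    have hbdd : BddAbove (norm ∘ Γ '' (ball z₀ ρ \ {z₀})) := by
      refine ⟨C, ?_⟩
      rintro _ ⟨z, ⟨hz, hz'⟩, rfl⟩
      have hz1 : z ≠ z₀ := hz'
      have hzD := hD z hz hz1
      have hzz : z ∈ ball z (R z) := mem_ball_self (hR z hzD).1
      rw [Function.comp_apply, hΓ, hΨ]
      refine hC _ ?_
      intro i _
      rw [mem_closedBall_zero_iff]
      exact (hne z hzD z hzz hz hz1 i).2
    have hext := Complex.differentiableOn_update_limUnder_of_bddAbove (ball_mem_nhds z₀ hρ) hd hbdd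
    obtain ⟨Γ', hΓ'⟩ : ∃ Γ' : ℂ → EN n, Γ' = Function.update Γ z₀ (limUnder (𝓝[≠] z₀) Γ) := ⟨_, rfl⟩
    rw [← hΓ'] at hext
    have hGG : ∀ z, z ≠ z₀ → Γ' z = Ψ z z := by
      intro z hz
      rw [hΓ', Function.update_of_ne hz, hΓ]
    have hv1 : ∀ z ∈ ball z₀ ρ, z ≠ z₀ → bf (Γ' z) b = (-1) ^ n := by
      intro z hz hz1
      rw [hGG z hz1]
      exact hval z (hD z hz hz1) z (mem_ball_self (hR z (hD z hz hz1)).1) hz hz1
    have hv2 : bf (Γ' z₀) b = (-1) ^ n := by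
      have h1 : ContinuousAt Γ' z₀ := hext.continuousOn.continuousAt (ball_mem_nhds z₀ hρ)
      have h2 : Continuous fun c : EN n => bf c b :=
        Continuous.comp (g := fun p : EN n × EN 1 => bf p.1 p.2) (f := fun c : EN n => (c, b)) (Differentiable.continuous (𝕜 := ℂ) bf_diff) (continuous_id.prodMk continuous_const)
      have h3 : Tendsto (fun z => bf (Γ' z) b) (𝓝[≠] z₀) (𝓝 (bf (Γ' z₀) b)) := ((h2.tendsto _).comp h1.tendsto).mono_left nhdsWithin_le_nhds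
      have h4 : Tendsto (fun z => bf (Γ' z) b) (𝓝[≠] z₀) (𝓝 ((-1) ^ n)) := by
        refine tendsto_const_nhds.congr' ?_
        have h5 : ∀ᶠ z in 𝓝[≠] z₀, z ∈ ball z₀ ρ := mem_nhdsWithin_of_mem_nhds (ball_mem_nhds z₀ hρ)
        filter_upwards [h5, self_mem_nhdsWithin] with z hz hz'
        exact (hv1 z hz hz').symm
      exact tendsto_nhds_unique h3 h4
    refine ⟨ρ, Γ', hρ, hext, ?_, hD, ?_⟩
    · intro z hz h0
      have h1 : bf (Γ' z) b ≠ 0 := by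
        rcases eq_or_ne z z₀ with h2 | h2
        · rw [h2, hv2]
          exact pow_ne_zero _ (neg_ne_zero.2 one_ne_zero)
        · rw [hv1 z hz h2]
          exact pow_ne_zero _ (neg_ne_zero.2 one_ne_zero)
      apply h1
      rw [h0, bf_zero]
    · intro z hz hzD v hv
      have hz1 : z ≠ z₀ := by
        intro h
        rw [h] at hzD
        exact hzD hz₀'
      rw [hGG z hz1]
      exact hZ z hzD z (mem_ball_self (hR z hzD).1) hz hz1 v hv

/-- the first factor -/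
theorem ext_g (P : PD Λ D Bad θ W) {y a : Vd (k + 1)} (ha : a ≠ 0) {Z : ℂ → EN 1 → Prop} (hS : Sl θ D y a n Z) :
    ∃ G : ℂ → EN n, Differentiable ℂ G ∧ (∀ z, G z ≠ 0) ∧ ∀ z : ℂ, y + z • a ∉ D → ∀ v : EN 1, v ≠ 0 → (Z z v ↔ bf (G z) v = 0) := by
  choose ρ Φ hρ hΦd hΦ0 hΦD hΦZ using loc_g P ha hS
  -- the classes agree
  have key : ∀ z₀, ∀ z ∈ ball z₀ (ρ z₀), pr (Φ z z) = pr (Φ z₀ z) := by
    intro z₀ w hw
    rcases eq_or_ne w z₀ with rfl | hne
    · rfl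
    have hwD := hΦD z₀ w hw hne
    have hww := mem_ball_self (x := w) (hρ w)
    obtain ⟨R, r, hR, -, h⟩ := hS w hwD
    have h1 := h w (mem_ball_self hR)
    have hz : ∀ i, Z w (r i w) := fun i => (h1.2.2.2 _ (h1.2.1 i).1).2 ⟨i, dt_self _⟩
    obtain ⟨κ, hκ⟩ := prop_of_roots (hΦ0 z₀ w hw) (fun i => r i w) h1.2.2.1 (fun i => (h1.2.1 i).1)
      (fun i => (hΦZ z₀ w hw hwD _ (h1.2.1 i).1).1 (hz i)) (fun i => (hΦZ w w hww hwD _ (h1.2.1 i).1).1 (hz i))
    have hκ0 : κ ≠ 0 := by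
      intro h2
      exact hΦ0 w w hww (by rw [hκ, h2, zero_smul])
    rw [hκ, Pool.Agent.H62.EF.pr_smul _ hκ0]
  have hL : ∀ z, LLift (fun z => pr (Φ z z)) z := by
    intro z₀
    refine ⟨Φ z₀, (hΦd z₀).analyticAt (ball_mem_nhds z₀ (hρ z₀)), ?_⟩
    filter_upwards [ball_mem_nhds z₀ (hρ z₀)] with z hz
    exact ⟨hΦ0 z₀ z hz, key z₀ z hz⟩
  obtain ⟨G, hG, hGe⟩ := Pool.Agent.G3.entire_lift hL
  refine ⟨G, hG, fun z => (hGe z).1, fun z hz v hv => ?_⟩
  have hzz := mem_ball_self (x := z) (hρ z)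
  obtain ⟨c, hc, hcG⟩ := (Pool.Agent.H62.EF.pr_eq_iff (hGe z).1 (hΦ0 z z hzz)).1 (hGe z).2.symm
  rw [hΦZ z z hzz hz v hv, hcG, bf_smul, mul_eq_zero, or_iff_right hc]

/-- the second factor -/
theorem ext_h (P : PD Λ D Bad θ W) (hn : n + n' = d) {y a : Vd (k + 1)} (ha : a ≠ 0) {Z : ℂ → EN 1 → Prop} (hS : Sl θ D y a n Z) {G : ℂ → EN n} (hG : Differentiable ℂ G) (hG0 : ∀ z, G z ≠ 0)
    (hZ : ∀ z : ℂ, y + z • a ∉ D → ∀ v : EN 1, v ≠ 0 → (Z z v ↔ bf (G z) v = 0)) : ∃ H : ℂ → EN n', GH θ y a G H := by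
  subst hn
  have hline : Differentiable ℂ fun z : ℂ => y + z • a := by fun_prop
  have hFz : ∀ v : EN 1, Differentiable ℂ fun z : ℂ => Fo θ (y + z • a) v := fun v =>
    Differentiable.comp (g := fun p : Vd (k + 1) × EN 1 => Fo θ p.1 p.2) (f := fun z : ℂ => (y + z • a, v)) (Pool.Agent.PX.fo_diff P.an) (hline.prodMk (differentiable_const v))
  have hGz : ∀ v : EN 1, Differentiable ℂ fun z : ℂ => bf (G z) v := fun v =>
    Differentiable.comp (g := fun p : EN n × EN 1 => bf p.1 p.2) (f := fun z : ℂ => (G z, v)) bf_diff (hG.prodMk (differentiable_const v))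
  -- the quotient at the points off `D`
  have hq : ∀ z, y + z • a ∉ D → ∃ H : EN n', ∀ v, Fo θ (y + z • a) v = bf (G z) v * bf H v := by
    intro z hz
    obtain ⟨R, r, hR, -, h⟩ := hS z hz
    have h1 := h z (mem_ball_self hR)
    exact exists_quo (c := tv θ (y + z • a)) (hG0 z) (fun i => r i z) h1.2.2.1 (fun i => (h1.2.1 i).1)
      (fun i => (hZ z hz _ (h1.2.1 i).1).1 ((h1.2.2.2 _ (h1.2.1 i).1).2 ⟨i, dt_self _⟩)) (fun i => (h1.2.1 i).2)
  -- the local factors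
  have hloc : ∀ z₀ : ℂ, ∃ (ρ : ℝ) (H : ℂ → EN n'), 0 < ρ ∧ DifferentiableOn ℂ H (ball z₀ ρ) ∧ ∀ z ∈ ball z₀ ρ, ∀ v, Fo θ (y + z • a) v = bf (G z) v * bf (H z) v := by
    intro z₀
    obtain ⟨v, hv, hv0⟩ := exists_vs (hG0 z₀) (n' + 1)
    obtain ⟨L, hL⟩ : ∃ L : EN n' →ₗ[ℂ] (Fin (n' + 1) → ℂ), ∀ H i, L H i = bf H (v i) :=
      ⟨{ toFun := fun H i => bf H (v i)
         map_add' := fun H H' => by
          funext i
          exact bf_add H H' (v i)
         map_smul' := fun c H => by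
          funext i
          exact bf_smul c H (v i) }, fun _ _ => rfl⟩
    have hinj : Function.Injective L := by
      rw [injective_iff_map_eq_zero]
      intro H hH
      refine bf_roots_le v hv (fun i => ?_) (Nat.lt_succ_self n')
      rw [← hL, hH]
      rfl
    have hfin : Module.finrank ℂ (EN n') = Module.finrank ℂ (Fin (n' + 1) → ℂ) := by
      rw [finrank_euclideanSpace, Module.finrank_fintype_fun_eq_card]
    obtain ⟨S, hS'⟩ : ∃ S : (Fin (n' + 1) → ℂ) →L[ℂ] EN n', ∀ H, S (L H) = H := by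
      refine ⟨LinearMap.toContinuousLinearMap (LinearMap.linearEquivOfInjective L hinj hfin).symm.toLinearMap, fun H => ?_⟩
      change (LinearMap.linearEquivOfInjective L hinj hfin).symm (L H) = H
      rw [LinearEquiv.symm_apply_eq]
      rfl
    have hev : ∀ᶠ z in 𝓝 z₀, ∀ i, bf (G z) (v i) ≠ 0 :=
      Filter.eventually_all.2 fun i => (hGz (v i)).continuous.continuousAt.eventually_ne (hv0 i)
    obtain ⟨ρ₁, hρ₁, h₁⟩ := Metric.eventually_nhds_iff.1 hev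
    obtain ⟨ρ₂, hρ₂, h₂⟩ := Metric.mem_nhdsWithin_iff.1 (off_near P (y := y) ha z₀)
    obtain ⟨ρ, hρ⟩ : ∃ ρ : ℝ, ρ = min ρ₁ ρ₂ := ⟨_, rfl⟩
    have hρ0 : 0 < ρ := by
      rw [hρ]
      exact lt_min hρ₁ hρ₂
    have hρ1 : ρ ≤ ρ₁ := by rw [hρ]; exact min_le_left _ _
    have hρ2 : ρ ≤ ρ₂ := by rw [hρ]; exact min_le_right _ _
    have hne : ∀ z ∈ ball z₀ ρ, ∀ i, bf (G z) (v i) ≠ 0 := fun z hz => h₁ (lt_of_lt_of_le (mem_ball.1 hz) hρ1)
    have hD : ∀ z ∈ ball z₀ ρ, z ≠ z₀ → y + z • a ∉ D := fun z hz hz' =>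
      h₂ ⟨ball_subset_ball hρ2 hz, hz'⟩
    obtain ⟨H, hH⟩ : ∃ H : ℂ → EN n', H = fun z => S fun i => Fo θ (y + z • a) (v i) / bf (G z) (v i) := ⟨_, rfl⟩
    have hHd : DifferentiableOn ℂ H (ball z₀ ρ) := by
      rw [hH]
      refine S.differentiable.comp_differentiableOn (differentiableOn_pi.2 fun i => ?_)
      exact (hFz (v i)).differentiableOn.div (hGz (v i)).differentiableOn fun z hz => hne z hz i
    have hoff : ∀ z ∈ ball z₀ ρ, z ≠ z₀ → ∀ w, Fo θ (y + z • a) w = bf (G z) w * bf (H z) w := by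
      intro z hz hz' w
      obtain ⟨H₁, hH₁⟩ := hq z (hD z hz hz')
      have h1 : H z = H₁ := by
        rw [hH]
        have h2 : (fun i => Fo θ (y + z • a) (v i) / bf (G z) (v i)) = L H₁ := by
          funext i
          rw [hL, hH₁ (v i), mul_div_cancel_left₀ _ (hne z hz i)]
        change S (fun i => Fo θ (y + z • a) (v i) / bf (G z) (v i)) = H₁
        rw [h2, hS']
      rw [h1]
      exact hH₁ w
    refine ⟨ρ, H, hρ0, hHd, fun z hz w => ?_⟩
    rcases eq_or_ne z z₀ with h | h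
    · rw [h]
      have hHc : ContinuousAt H z₀ := hHd.continuousOn.continuousAt (ball_mem_nhds z₀ hρ0)
      have hbc : Continuous fun c : EN n' => bf c w :=
        Continuous.comp (g := fun p : EN n' × EN 1 => bf p.1 p.2) (f := fun c : EN n' => (c, w)) (Differentiable.continuous (𝕜 := ℂ) bf_diff) (continuous_id.prodMk continuous_const)
      have h1 : Tendsto (fun z : ℂ => Fo θ (y + z • a) w) (𝓝[≠] z₀) (𝓝 (Fo θ (y + z₀ • a) w)) :=
        ((hFz w).continuous.tendsto z₀).mono_left nhdsWithin_le_nhds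
      have h2 : Tendsto (fun z : ℂ => bf (G z) w * bf (H z) w) (𝓝[≠] z₀) (𝓝 (bf (G z₀) w * bf (H z₀) w)) :=
        (((hGz w).continuous.tendsto z₀).mul ((hbc.tendsto _).comp hHc.tendsto)).mono_left nhdsWithin_le_nhds
      refine tendsto_nhds_unique h1 (h2.congr' ?_)
      have h5 : ∀ᶠ z in 𝓝[≠] z₀, z ∈ ball z₀ ρ := mem_nhdsWithin_of_mem_nhds (ball_mem_nhds z₀ hρ0)
      filter_upwards [h5, self_mem_nhdsWithin] with z hz hz'
      exact (hoff z hz hz' w).symm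
    · exact hoff z hz h w
  choose ρ H hρ hHd hH using hloc
  refine ⟨fun z => H z z, hG, ?_, hG0, fun z v => hH z z (mem_ball_self (hρ z)) v⟩
  intro z₀
  have h1 : (fun z => H z z) =ᶠ[𝓝 z₀] H z₀ := by
    filter_upwards [ball_mem_nhds z₀ (hρ z₀)] with z hz
    exact bf_cancel (hG0 z) fun v => by rw [← hH z z (mem_ball_self (hρ z)) v, ← hH z₀ z hz v]
  exact (((hHd z₀) z₀ (mem_ball_self (hρ z₀))).differentiableAt (ball_mem_nhds z₀ (hρ z₀))).congr_of_eventuallyEq h1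

end Pool.Agent.TM
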