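import Pool.Agent.H94.PX4.M75
import Pool.Agent.H94.PX4.PX.Bas

/-!
# TM Bf: binary forms

Dehomogenize: `bf c (t, 1) = (pl c).eval t`, `bf c (1, 0) = c n`, `bf c (s • v) = s ^ n * bf c v`; every `v ≠ 0` is a multiple of some `(t, 1)` or of `(1, 0)`.  `bf_roots_le`: at most `n` roots in `ℙ¹` (the finite ones by `Polynomial.card_roots'`; if `(1, 0)` is among them
then `c n = 0` and the degree drops), by induction on `n` or directly.  `exists_split`: `pl c` splits over `ℂ`, `natDegree = n - (multiplicity of the root (1, 0))`; `dt r v = r 0 * v 1 - r 1 * v 0`.  `exists_ml`: the coefficients of the product of the polynomials.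
-/

set_option autoImplicit false

open Topology Filter Metric

namespace Pool.Agent.TM

open Pool.Agent.H36.BP (EN)
open Pool.Agent.AD (Vd)
open Pool.Agent.PX (Fo dt)

variable {k d n m n' : ℕ}

/-- the form of degree `n` of a polynomial -/
private noncomputable def co (n : ℕ) (p : Polynomial ℂ) : EN n := WithLp.toLp 2 fun i => p.coeff i

private theorem co_apply (n : ℕ) (p : Polynomial ℂ) (i : Fin (n + 1)) : co n p i = p.coeff i := rfl

private theorem pl_coeff (c : EN n) (i : Fin (n + 1)) : (pl c).coeff i = c i := by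
  unfold pl
  rw [Polynomial.finsetSum_coeff, Finset.sum_eq_single i]
  · rw [Polynomial.coeff_C_mul_X_pow, if_pos rfl]
  · intro j _ hj
    rw [Polynomial.coeff_C_mul_X_pow, if_neg]
    intro h
    exact hj (Fin.ext h.symm)
  · intro h
    exact absurd (Finset.mem_univ i) h

private theorem pl_coeff_of_gt (c : EN n) {i : ℕ} (hi : n < i) : (pl c).coeff i = 0 := by
  unfold pl
  rw [Polynomial.finsetSum_coeff]
  refine Finset.sum_eq_zero fun j _ => ?_
  rw [Polynomial.coeff_C_mul_X_pow, if_neg]
  have := j.2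
  omega

private theorem pl_natDegree (c : EN n) : (pl c).natDegree ≤ n := by
  rw [Polynomial.natDegree_le_iff_coeff_eq_zero]
  intro i hi
  exact pl_coeff_of_gt c hi

private theorem co_pl (c : EN n) : co n (pl c) = c := by
  ext i
  rw [co_apply, pl_coeff]

private theorem bf_co_ne {p : Polynomial ℂ} (hp : p.natDegree ≤ n) {v : EN 1} (hv : v 1 ≠ 0) :
    bf (co n p) v = v 1 ^ n * p.eval (v 0 / v 1) := by
  unfold bf
  rw [Polynomial.eval_eq_sum_range' (Nat.lt_succ_of_le hp), ← Fin.sum_univ_eq_sum_range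
    (fun i => p.coeff i * (v 0 / v 1) ^ i), Finset.mul_sum]
  refine Finset.sum_congr rfl fun i _ => ?_
  rw [co_apply]
  have h1 : v 1 ^ n = v 1 ^ (i : ℕ) * v 1 ^ (n - (i : ℕ)) := by
    rw [← pow_add]
    congr 1
    have := i.2
    omega
  rw [h1, div_pow]
  field_simp

private theorem bf_eq_zero {c : EN n} {v : EN 1} (hv : v 1 = 0) :
    bf c v = c (Fin.last n) * v 0 ^ n := by
  unfold bf
  rw [Finset.sum_eq_single (Fin.last n)]
  · rw [Fin.val_last, Nat.sub_self, pow_zero, mul_one]
  · intro j _ hj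
    have h1 : (j : ℕ) < n := lt_of_le_of_ne (Nat.lt_succ_iff.mp j.2) fun h => hj (Fin.ext h)
    rw [hv, zero_pow (by omega), mul_zero]
  · intro h
    exact absurd (Finset.mem_univ _) h

private theorem bf_co_mul {p q : Polynomial ℂ} (hp : p.natDegree ≤ n) (hq : q.natDegree ≤ n')
    (v : EN 1) : bf (co (n + n') (p * q)) v = bf (co n p) v * bf (co n' q) v := by
  by_cases hv : v 1 = 0
  · rw [bf_eq_zero hv, bf_eq_zero hv, bf_eq_zero hv, co_apply, co_apply, co_apply, Fin.val_last,
      Fin.val_last, Fin.val_last, Polynomial.coeff_mul_add_eq_of_natDegree_le hp hq]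
    ring
  · rw [bf_co_ne (Polynomial.natDegree_mul_le.trans (add_le_add hp hq)) hv, bf_co_ne hp hv,
      bf_co_ne hq hv, Polynomial.eval_mul]
    ring

private theorem bf_pl_ne (c : EN n) {v : EN 1} (hv : v 1 ≠ 0) :
    bf c v = v 1 ^ n * (pl c).eval (v 0 / v 1) := by
  conv_lhs => rw [← co_pl c]
  exact bf_co_ne (pl_natDegree c) hv

theorem bf_smul_v (c : EN n) (s : ℂ) (v : EN 1) : bf c (s • v) = s ^ n * bf c v := by
  unfold bf
  rw [Finset.mul_sum]
  refine Finset.sum_congr rfl fun i _ => ?_
  have h1 : s ^ n = s ^ (i : ℕ) * s ^ (n - (i : ℕ)) := by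
    rw [← pow_add]
    congr 1
    have := i.2
    omega
  rw [h1, PiLp.smul_apply, PiLp.smul_apply, smul_eq_mul, smul_eq_mul, mul_pow, mul_pow]
  ring

theorem bf_add (c c' : EN n) (v : EN 1) : bf (c + c') v = bf c v + bf c' v := by
  unfold bf
  rw [← Finset.sum_add_distrib]
  refine Finset.sum_congr rfl fun i _ => ?_
  rw [PiLp.add_apply]
  ring

theorem bf_smul (s : ℂ) (c : EN n) (v : EN 1) : bf (s • c) v = s * bf c v := by
  unfold bf
  rw [Finset.mul_sum]
  refine Finset.sum_congr rfl fun i _ => ?_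
  rw [PiLp.smul_apply, smul_eq_mul]
  ring

theorem bf_zero (v : EN 1) : bf (0 : EN n) v = 0 := by
  unfold bf
  refine Finset.sum_eq_zero fun i _ => ?_
  rw [PiLp.zero_apply]
  ring

private theorem cdiff' {N : ℕ} (i : Fin (N + 1)) : Differentiable ℂ fun c : EN N => c i :=
  (PiLp.proj (𝕜 := ℂ) 2 (fun _ : Fin (N + 1) => ℂ) i).differentiable

theorem bf_diff : Differentiable ℂ fun p : EN n × EN 1 => bf p.1 p.2 := by
  unfold bf
  refine Differentiable.fun_sum fun i _ => ?_
  exact (((cdiff' i).comp differentiable_fst).mul (((cdiff' 0).comp differentiable_snd).pow _)).mul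
    (((cdiff' 1).comp differentiable_snd).pow _)

/-- the vector `(t, 1)` -/
private noncomputable def vt (t : ℂ) : EN 1 := WithLp.toLp 2 ![t, 1]

private theorem vt_zero (t : ℂ) : vt t 0 = t := rfl

private theorem vt_one (t : ℂ) : vt t 1 = 1 := rfl

private theorem bf_vt (c : EN n) (t : ℂ) : bf c (vt t) = (pl c).eval t := by
  rw [bf_pl_ne c (by rw [vt_one]; exact one_ne_zero), vt_one, vt_zero, one_pow, one_mul, div_one]

theorem bf_ext {c c' : EN n} (h : ∀ v, bf c v = bf c' v) : c = c' := by
  have h1 : pl c = pl c' := Polynomial.funext fun t => by rw [← bf_vt, ← bf_vt, h]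
  rw [← co_pl c, ← co_pl c', h1]

/-- a form of positive degree has a root -/
theorem exists_root (hn : 0 < n) (c : EN n) : ∃ v : EN 1, v ≠ 0 ∧ bf c v = 0 := by
  by_cases hc : c (Fin.last n) = 0
  · refine ⟨WithLp.toLp 2 ![1, 0], ?_, ?_⟩
    · intro h
      have h1 : (WithLp.toLp 2 ![(1 : ℂ), 0] : EN 1) 0 = 0 := by rw [h]; rfl
      exact one_ne_zero h1
    · rw [bf_eq_zero rfl, hc, zero_mul]
  · have hd : (pl c).degree ≠ 0 := by
      intro h
      have h1 : (pl c).natDegree = 0 := Polynomial.natDegree_eq_of_degree_eq_some h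
      have h2 : (pl c).coeff n = c (Fin.last n) := pl_coeff c (Fin.last n)
      rw [Polynomial.coeff_eq_zero_of_natDegree_lt (by omega)] at h2
      exact hc h2.symm
    obtain ⟨t, ht⟩ := IsAlgClosed.exists_root (pl c) hd
    refine ⟨vt t, ?_, ?_⟩
    · intro h
      have h1 : vt t 1 = 0 := by rw [h]; rfl
      rw [vt_one] at h1
      exact one_ne_zero h1
    · rw [bf_vt]
      exact ht

/-- division by a linear factor -/
private theorem exists_div {c : EN (n + 1)} {r : EN 1} (hr : r ≠ 0) (h : bf c r = 0) :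
    ∃ c' : EN n, ∀ v, bf c v = dt r v * bf c' v := by
  by_cases h1 : r 1 = 0
  · have h0 : r 0 ≠ 0 := by
      intro h0
      apply hr
      ext i
      fin_cases i
      · exact h0
      · exact h1
    rw [bf_eq_zero h1] at h
    have hl := (mul_eq_zero.mp h).resolve_right (pow_ne_zero _ h0)
    have hd : (pl c).natDegree ≤ n := by
      rw [Polynomial.natDegree_le_iff_coeff_eq_zero]
      intro i hi
      rcases Nat.lt_or_ge (n + 1) i with h2 | h2
      · exact pl_coeff_of_gt c h2
      · have h3 : i = n + 1 := by omega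
        rw [h3, ← hl]
        exact pl_coeff c (Fin.last (n + 1))
    refine ⟨(1 / r 0) • co n (pl c), fun v => ?_⟩
    have h2 := bf_co_mul (n' := 1) hd (q := 1) (by simp) v
    rw [mul_one, co_pl] at h2
    have h3 : bf (co 1 (1 : Polynomial ℂ)) v = v 1 := by
      unfold bf
      rw [Fin.sum_univ_two, co_apply, co_apply]
      simp [Polynomial.coeff_one]
    rw [h2, h3, bf_smul]
    unfold dt
    rw [h1]
    field_simp
    ring
  · obtain ⟨ρ, hρ⟩ : ∃ ρ, ρ = r 0 / r 1 := ⟨_, rfl⟩
    have hroot : (pl c).IsRoot ρ := by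
      rw [bf_pl_ne c h1] at h
      rw [Polynomial.IsRoot.def, hρ]
      exact (mul_eq_zero.mp h).resolve_left (pow_ne_zero _ h1)
    obtain ⟨q, hq⟩ := Polynomial.dvd_iff_isRoot.mpr hroot
    have hqd : q.natDegree ≤ n := by
      by_cases hq0 : q = 0
      · rw [hq0]
        simp
      · have h2 := pl_natDegree c
        rw [hq, Polynomial.natDegree_mul (Polynomial.X_sub_C_ne_zero ρ) hq0,
          Polynomial.natDegree_X_sub_C] at h2
        omega
    refine ⟨(-(1 / r 1)) • co n q, fun v => ?_⟩
    have h2 := bf_co_mul (n' := 1) hqd (q := Polynomial.X - Polynomial.C ρ)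
      (by rw [Polynomial.natDegree_X_sub_C]) v
    rw [mul_comm q, ← hq, co_pl] at h2
    have h3 : bf (co 1 (Polynomial.X - Polynomial.C ρ)) v = v 0 - ρ * v 1 := by
      unfold bf
      rw [Fin.sum_univ_two, co_apply, co_apply]
      simp [Polynomial.coeff_X, Polynomial.coeff_C]
      ring
    rw [h2, h3, bf_smul, hρ]
    unfold dt
    field_simp
    ring

/-- a form which is not `0` is a product of linear forms -/
theorem exists_split {c : EN n} (hc : c ≠ 0) : ∃ (a : ℂ) (r : Fin n → EN 1), a ≠ 0 ∧ (∀ i, r i ≠ 0) ∧ ∀ v, bf c v = a * ∏ i, dt (r i) v := by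
  induction n with
  | zero =>
    refine ⟨c 0, fun i => i.elim0, ?_, fun i => i.elim0, fun v => ?_⟩
    · intro h
      apply hc
      ext i
      rw [show i = 0 from Fin.ext (by have := i.2; simp only [Fin.val_zero]; omega), h]
      rfl
    · unfold bf
      simp
  | succ n ih =>
    obtain ⟨r₀, hr₀, hroot⟩ := exists_root (Nat.succ_pos n) c
    obtain ⟨c', hc'⟩ := exists_div hr₀ hroot
    have hc'0 : c' ≠ 0 := by
      rintro rfl
      apply hc
      refine bf_ext fun v => ?_
      rw [hc' v, bf_zero, bf_zero, mul_zero]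
    obtain ⟨a, r, ha, hr, h⟩ := ih hc'0
    refine ⟨a, Fin.cons r₀ r, ha, ?_, fun v => ?_⟩
    · intro i
      refine Fin.cases ?_ (fun j => ?_) i
      · rw [Fin.cons_zero]
        exact hr₀
      · rw [Fin.cons_succ]
        exact hr j
    · rw [hc' v, h v, Fin.prod_univ_succ, Fin.cons_zero]
      simp only [Fin.cons_succ]
      ring

/-- a form of degree `n` with more than `n` roots is `0` -/
theorem bf_roots_le {c : EN n} {s : ℕ} (r : Fin s → EN 1) (hr : ∀ i j, i ≠ j → dt (r i) (r j) ≠ 0) (h : ∀ i, bf c (r i) = 0) (hs : n < s) : c = 0 := by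
  by_contra hc
  obtain ⟨a, ρ, ha, hρ, hsp⟩ := exists_split hc
  have h1 : ∀ j, ∃ i, dt (ρ i) (r j) = 0 := by
    intro j
    have h2 := h j
    rw [hsp, mul_eq_zero] at h2
    obtain ⟨i, _, hi⟩ := Finset.prod_eq_zero_iff.mp (h2.resolve_left ha)
    exact ⟨i, hi⟩
  choose f hf using h1
  obtain ⟨j, j', hjj, hff⟩ := Fintype.exists_ne_map_eq_of_card_lt f (by simpa using hs)
  have e1 := hf j
  have e2 := hf j'
  rw [← hff] at e2
  obtain ⟨x, hx⟩ := (Pool.Agent.PX.dt_eq_zero (hρ _)).mp e1
  obtain ⟨y, hy⟩ := (Pool.Agent.PX.dt_eq_zero (hρ _)).mp e2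
  apply hr j j' hjj
  rw [hx, hy]
  unfold dt
  simp only [PiLp.smul_apply, smul_eq_mul]
  ring

/-- the product of two forms -/
theorem exists_ml (n n' : ℕ) : ∃ φ : EN n × EN n' → EN (n + n'), Differentiable ℂ φ ∧ ∀ G H v, bf (φ (G, H)) v = bf G v * bf H v := by
  refine ⟨fun p => co (n + n') (pl p.1 * pl p.2), ?_, fun G H v => ?_⟩
  · have hco : ∀ (N : ℕ) (i : ℕ), Differentiable ℂ fun c : EN N => (pl c).coeff i := by
      intro N i
      rcases Nat.lt_or_ge N i with h | h
      · simp only [pl_coeff_of_gt _ h]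
        exact differentiable_const _
      · have h1 : (fun c : EN N => (pl c).coeff i) = fun c => c ⟨i, Nat.lt_succ_of_le h⟩ := by
          funext c
          exact pl_coeff c ⟨i, Nat.lt_succ_of_le h⟩
        rw [h1]
        exact cdiff' _
    rw [differentiable_euclidean]
    intro i
    show Differentiable ℂ fun p : EN n × EN n' => (pl p.1 * pl p.2).coeff i
    simp only [Polynomial.coeff_mul]
    refine Differentiable.fun_sum fun x _ => ?_
    exact ((hco n _).comp differentiable_fst).mul ((hco n' _).comp differentiable_snd)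
  · show bf (co (n + n') (pl G * pl H)) v = bf G v * bf H v
    rw [bf_co_mul (pl_natDegree G) (pl_natDegree H), co_pl, co_pl]

/-- the product of linear forms, its coefficients depend holomorphically on the roots -/
theorem exists_pf (n : ℕ) : ∃ φ : (Fin n → EN 1) → EN n, Differentiable ℂ φ ∧ ∀ r v, bf (φ r) v = ∏ i, dt (r i) v := by
  induction n with
  | zero =>
    refine ⟨fun _ => WithLp.toLp 2 fun _ => 1, differentiable_const _, fun r v => ?_⟩
    unfold bf
    simp
  | succ n ih =>
    obtain ⟨φ, hφ, h⟩ := ih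
    obtain ⟨ψ, hψ, h'⟩ := exists_ml n 1
    refine ⟨fun r => ψ (φ (fun i => r i.castSucc), WithLp.toLp 2 ![r (Fin.last n) 0, -(r (Fin.last n) 1)]),
      ?_, fun r v => ?_⟩
    · refine hψ.comp (Differentiable.prodMk ?_ ?_)
      · refine hφ.comp ?_
        rw [differentiable_pi]
        intro i
        exact differentiable_apply _
      · rw [differentiable_euclidean]
        intro i
        have hl : Differentiable ℂ fun r : Fin (n + 1) → EN 1 => r (Fin.last n) :=
          differentiable_apply (𝕜 := ℂ) (F' := fun _ : Fin (n + 1) => EN 1) (Fin.last n)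
        fin_cases i
        · show Differentiable ℂ fun r : Fin (n + 1) → EN 1 => r (Fin.last n) 0
          exact (cdiff' (N := 1) 0).comp hl
        · show Differentiable ℂ fun r : Fin (n + 1) → EN 1 => -(r (Fin.last n) 1)
          exact ((cdiff' (N := 1) 1).comp hl).neg
    · show bf (ψ (φ (fun i => r i.castSucc), WithLp.toLp 2 ![r (Fin.last n) 0, -(r (Fin.last n) 1)])) v = _
      rw [h', h, Fin.prod_univ_castSucc]
      congr 1
      unfold bf dt
      rw [Fin.sum_univ_two]
      show r (Fin.last n) 0 * v 0 ^ 0 * v 1 ^ (1 - 0) + -(r (Fin.last n) 1) * v 0 ^ 1 * v 1 ^ (1 - 1) = _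
      ring

end Pool.Agent.TM
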